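import Pool.Agent.W570.NQ.L4

/-!
# Bodies of bounded Minkowski asymmetry
-/

set_option autoImplicit false

open MeasureTheory Filter Topology
open scoped ENNReal Pointwise

namespace Pool.Agent.TH247.NS

open Pool.Agent.W570.AV Pool.Agent.W570.NQ H801NS

variable {n : ℕ}

/-- difference body inside a multiple of the symmetric core -/
lemma diff_sub_core {K : Set (Fin n → ℝ)} (hc : Convex ℝ K) {ρ : ℝ} (hρ : 0 < ρ)
    (h : -K ⊆ ρ • K) : K - K ⊆ (1 + ρ) • (K ∩ -K) := by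
  have key : ∀ x ∈ K, ∀ y ∈ K, (1 + ρ)⁻¹ • (x - y) ∈ K := by
    intro x hx y hy
    obtain ⟨w, hw, hwy⟩ := h (show -y ∈ -K by simpa using hy)
    simp only at hwy
    have h1 : (1 + ρ)⁻¹ • (x - y) = (1 / (1 + ρ)) • x + (ρ / (1 + ρ)) • w := by
      rw [sub_eq_add_neg, ← hwy, smul_add, smul_smul]
      congr 2
      · simp
      · field_simp
    rw [h1]
    exact hc hx hw (by positivity) (by positivity) (by field_simp)
  rintro _ ⟨x, hx, y, hy, rfl⟩
  refine ⟨(1 + ρ)⁻¹ • (x - y), ⟨key x hx y hy, ?_⟩, ?_⟩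
  · rw [Set.mem_neg]
    have := key y hy x hx
    rw [← smul_neg, neg_sub]
    exact this
  · simp only
    rw [smul_smul, mul_inv_cancel₀ (by positivity), one_smul]

/-- the origin is an interior point of a body with `-K ⊆ ρ K` -/
lemma zero_int {K : Set (Fin n → ℝ)} (hc : Convex ℝ K) (hi : (interior K).Nonempty) {ρ : ℝ}
    (hρ : 0 < ρ) (h : -K ⊆ ρ • K) : (0 : Fin n → ℝ) ∈ interior K := by
  obtain ⟨x, hx⟩ := hi
  obtain ⟨w, hw, hwx⟩ := h (show -x ∈ -K by simpa using interior_subset hx)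
  simp only at hwx
  have h0 : (0 : Fin n → ℝ) = (1 / (1 + ρ)) • x + (ρ / (1 + ρ)) • w := by
    have : (ρ / (1 + ρ)) • w = (1 / (1 + ρ)) • (ρ • w) := by
      rw [smul_smul]; congr 1; field_simp
    rw [this, hwx]
    simp
  rw [h0]
  exact hc.combo_interior_self_mem_interior hx hw (by positivity) (by positivity) (by field_simp)

/-- centred form: `κ(K)² ≤ 4ρ` -/
lemma kap_sq_le (hn : 1 ≤ n) {K : Set (Fin n → ℝ)} (hK : NB K) {ρ : ℝ} (hρ : 0 < ρ)
    (h : -K ⊆ ρ • K) : kap K ^ 2 ≤ 4 * ρ := by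
  have hV := vol_pos hK
  have hκ := kap_pos hK
  have h3 := k3 hn hK
  have h1 := kap_pow hn hK
  have hsub := diff_sub_core hK.conv hρ h
  have hcore := core_NB hK
  have hfin : volume ((1 + ρ) • (K ∩ -K)) ≠ ⊤ := (hcore.comp.smul _).measure_lt_top.ne
  have h2 := ENNReal.toReal_mono hfin (measure_mono hsub)
  rw [Measure.addHaar_smul, Module.finrank_fin_fun, ENNReal.toReal_mul,
    ENNReal.toReal_ofReal (by positivity), abs_of_pos (by positivity)] at h2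
  change volume.real (K - K) ≤ (1 + ρ) ^ n * volume.real (K ∩ -K) at h2
  rw [h1] at h2
  have h4 : (kap K ^ 2 / 4 + 1) ^ n ≤ (1 + ρ) ^ n := by
    have e : kap K ^ 2 / 4 + 1 = kap K * (kap K / 4 + (kap K)⁻¹) := by field_simp
    rw [e, mul_pow]
    have h5 : kap K ^ n * volume.real K * (kap K / 4 + (kap K)⁻¹) ^ n ≤
        (1 + ρ) ^ n * (volume.real (K ∩ -K) * (kap K / 4 + (kap K)⁻¹) ^ n) := by
      calc kap K ^ n * volume.real K * (kap K / 4 + (kap K)⁻¹) ^ n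
          ≤ ((1 + ρ) ^ n * volume.real (K ∩ -K)) * (kap K / 4 + (kap K)⁻¹) ^ n := by gcongr
        _ = _ := by ring
    have h6 : kap K ^ n * (kap K / 4 + (kap K)⁻¹) ^ n * volume.real K ≤
        (1 + ρ) ^ n * volume.real K := by
      calc kap K ^ n * (kap K / 4 + (kap K)⁻¹) ^ n * volume.real K
          = kap K ^ n * volume.real K * (kap K / 4 + (kap K)⁻¹) ^ n := by ring
        _ ≤ _ := h5
        _ ≤ (1 + ρ) ^ n * volume.real K := by gcongr
    exact le_of_mul_le_mul_right h6 hV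
  have h5 : kap K ^ 2 / 4 + 1 ≤ 1 + ρ :=
    (pow_le_pow_iff_left₀ (by positivity) (by positivity) (by omega)).1 h4
  linarith

lemma real_tr (a : Fin n → ℝ) (S : Set (Fin n → ℝ)) :
    volume.real (tr a S) = volume.real S := by
  unfold Measure.real
  rw [vol_tr]

lemma tr_sub (a : Fin n → ℝ) (S : Set (Fin n → ℝ)) : tr a S - tr a S = S - S := by
  ext x
  constructor
  · rintro ⟨_, ⟨u, hu, rfl⟩, _, ⟨v, hv, rfl⟩, rfl⟩
    exact ⟨u, hu, v, hv, by simp⟩
  · rintro ⟨u, hu, v, hv, rfl⟩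
    exact ⟨u - a, ⟨u, hu, rfl⟩, v - a, ⟨v, hv, rfl⟩, by simp⟩

lemma tr_neg {K : Set (Fin n → ℝ)} {ρ : ℝ} (hρ : 0 < ρ) {z : Fin n → ℝ}
    (h : -K ⊆ {z} + ρ • K) : -(tr (-((1 + ρ)⁻¹ • z)) K) ⊆ ρ • tr (-((1 + ρ)⁻¹ • z)) K := by
  intro y hy
  obtain ⟨x, hx, hxy⟩ := hy
  simp only at hxy
  obtain ⟨z', hz', _, ⟨w, hw, rfl⟩, hzw⟩ := h (show -x ∈ -K by simpa using hx)
  rw [Set.mem_singleton_iff] at hz'
  subst hz'
  simp only at hzw
  refine ⟨w - (-((1 + ρ)⁻¹ • z')), ⟨w, hw, rfl⟩, ?_⟩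
  simp only
  have hy' : y = -(x - (-((1 + ρ)⁻¹ • z'))) := by rw [hxy, neg_neg]
  have hx' : x = -(z' + ρ • w) := by rw [hzw, neg_neg]
  have e : z' = (1 + ρ)⁻¹ • z' + ρ • ((1 + ρ)⁻¹ • z') := by
    rw [smul_smul, ← add_smul]
    have : (1 + ρ)⁻¹ + ρ * (1 + ρ)⁻¹ = 1 := by field_simp
    rw [this, one_smul]
  rw [hy', hx', sub_neg_eq_add, smul_add, sub_neg_eq_add]
  set u := (1 + ρ)⁻¹ • z' with hu
  rw [e]
  module

/-- **Rogers-Shephard inequality for bodies of bounded asymmetry**: if `-K ⊆ z + ρK` then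
`|K - K| ≤ (4ρ)^(n/2) |K|`. -/
theorem diff_le (hn : 1 ≤ n) {K : Set (Fin n → ℝ)} (hc : Convex ℝ K) (hk : IsCompact K)
    (hi : (interior K).Nonempty) {ρ : ℝ} (hρ : 0 < ρ) {z : Fin n → ℝ} (h : -K ⊆ {z} + ρ • K) :
    volume.real (K - K) ≤ (2 * Real.sqrt ρ) ^ n * volume.real K := by
  set c : Fin n → ℝ := -((1 + ρ)⁻¹ • z) with hcdef
  have htr : tr c K = (fun x => x + (-c)) '' K := by
    unfold tr; simp only [sub_eq_add_neg]
  have hc' : Convex ℝ (tr c K) := by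
    rw [htr]
    have := hc.translate (-c)
    simpa [add_comm] using this
  have hk' : IsCompact (tr c K) := hk.image (by fun_prop)
  have hi' : (interior (tr c K)).Nonempty := by
    obtain ⟨x, hx⟩ := hi
    refine ⟨x - c, ?_⟩
    have : tr c K = (Homeomorph.addRight (-c)) '' K := by rw [htr]; rfl
    rw [this, ← Homeomorph.image_interior]
    exact ⟨x, hx, by simp [sub_eq_add_neg]⟩
  have hneg := tr_neg hρ h
  have h0 := zero_int hc' hi' hρ hneg
  have hNB : NB (tr c K) := ⟨hk', hc', h0⟩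
  have hkap := kap_sq_le hn hNB hρ hneg
  have h1 := kap_pow hn hNB
  rw [tr_sub, real_tr] at h1
  rw [h1]
  have h2 : kap (tr c K) ≤ 2 * Real.sqrt ρ := by
    rw [← Real.sqrt_sq (kap_pos hNB).le]
    calc Real.sqrt (kap (tr c K) ^ 2) ≤ Real.sqrt (4 * ρ) := Real.sqrt_le_sqrt hkap
      _ = 2 * Real.sqrt ρ := by
        rw [Real.sqrt_mul (by norm_num)]
        congr 1
        rw [show (4:ℝ) = 2 ^ 2 by norm_num, Real.sqrt_sq (by norm_num)]
  have := (kap_pos hNB).le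
  gcongr

end Pool.Agent.TH247.NS
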