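import Pool.Agent.TH247.NS.A

/-!
# Mahler inequality for bodies of bounded Minkowski asymmetry
-/

set_option autoImplicit false

open MeasureTheory Filter Topology
open scoped ENNReal Pointwise

namespace Pool.Agent.TH247.NS

open Pool.Agent.W570.AV Pool.Agent.W570.NQ H801NS

variable {n : ℕ}

/-- some translate of `ρ K`, or of `ρ K°`, contains `-K`, respectively `-K°` -/
def Asy (ρ : ℝ) (K : Set (Fin n → ℝ)) : Prop :=
  (∃ z : Fin n → ℝ, -K ⊆ {z} + ρ • K) ∨ ∃ z : Fin n → ℝ, -(pol K) ⊆ {z} + ρ • pol K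

lemma body_asy (hn : 1 ≤ n) {K : Set (Fin n → ℝ)} (hc : Convex ℝ K) (hk : IsCompact K)
    (h0 : (0 : Fin n → ℝ) ∈ interior K) {ρ : ℝ} (hρ : 0 < ρ) (h : Asy ρ K) :
    volume.real (K - K) ≤ (2 * Real.sqrt ρ) ^ n * volume.real K ∨
      volume.real (pol K - pol K) ≤ (2 * Real.sqrt ρ) ^ n * volume.real (pol K) := by
  rcases h with ⟨z, hz⟩ | ⟨z, hz⟩
  · exact Or.inl (diff_le hn hc hk ⟨0, h0⟩ hρ hz)
  · have hp := (t_POL n K ⟨hk, hc, h0⟩).1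
    exact Or.inr (diff_le hn hp.conv hp.comp ⟨0, hp.zero⟩ hρ hz)

lemma base_eq' {ρ : ℝ} (hρ : 0 < ρ) : 2 + 8 / (2 * Real.sqrt ρ) ^ 2 = 2 + 2 / ρ := by
  rw [mul_pow, Real.sq_sqrt hρ.le]
  congr 1
  field_simp
  norm_num

/-- `M_∞(K) ≥ (2 + 2/ρ)^n` -/
theorem mah_asy (hn : 1 ≤ n) {K : Set (Fin n → ℝ)} (hc : Convex ℝ K) (hk : IsCompact K)
    (hi : (interior K).Nonempty) {ρ : ℝ} (hρ : 0 < ρ) (h : Asy ρ K) :
    ENNReal.ofReal ((2 + 2 / ρ) ^ n) ≤ mah K := by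
  by_cases h0 : (0 : Fin n → ℝ) ∈ interior K
  · have h1 := body_asy hn hc hk h0 hρ h
    have h2 := mah_either hn hc hk hi (κ := 2 * Real.sqrt ρ) (by positivity) h1
    rwa [base_eq' hρ] at h2
  · rw [mah_top hc hk hi h0]
    exact le_top

theorem crit_inf (hn : 1 ≤ n) {K : Set (Fin n → ℝ)} (hc : Convex ℝ K) (hk : IsCompact K)
    (hi : (interior K).Nonempty) {ρ : ℝ} (hρ : 0 < ρ) (h : Asy ρ K) :
    (((n:ℝ) + 1) ^ (n + 1) / n.factorial ≤ (2 + 2 / ρ) ^ n → infi n ≤ mah K) ∧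
    (((n:ℝ) + 1) ^ (n + 1) / n.factorial < (2 + 2 / ρ) ^ n → infi n < mah K) :=
  ⟨fun hh => infi_le.trans ((ENNReal.ofReal_le_ofReal hh).trans (mah_asy hn hc hk hi hρ h)),
   fun hh => infi_le.trans_lt (((ENNReal.ofReal_lt_ofReal_iff (by positivity)).2 hh).trans_le
    (mah_asy hn hc hk hi hρ h))⟩

theorem crit_fin {p : ℝ} (hp : 0 < p) (hn : 1 ≤ n) {K : Set (Fin n → ℝ)} (hc : Convex ℝ K)
    (hk : IsCompact K) (hi : (interior K).Nonempty) {ρ : ℝ} (hρ : 0 < ρ) (h : Asy ρ K) :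
    (bet p ^ n * (((n:ℝ) + 1) ^ (n + 1) / n.factorial) ≤ (2 + 2 / ρ) ^ n →
      infp n p ≤ mahp p K) ∧
    (bet p ^ n * (((n:ℝ) + 1) ^ (n + 1) / n.factorial) < (2 + 2 / ρ) ^ n →
      infp n p < mahp p K) := by
  have h1 := (mah_asy hn hc hk hi hρ h).trans (mah_le_mahp hk (vol_ne hi) hp)
  exact ⟨fun hh => (infp_le hp).trans ((ENNReal.ofReal_le_ofReal hh).trans h1),
    fun hh => (infp_le hp).trans_lt
      (((ENNReal.ofReal_lt_ofReal_iff (by positivity)).2 hh).trans_le h1)⟩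

/-- every `ρ < 2/(e-2)` -/
theorem all_rho {ρ : ℝ} (hρ : 0 < ρ) (h : ρ * (Real.exp 1 - 2) < 2) :
    ∃ (p0 : ℝ) (n0 : ℕ), 0 < p0 ∧ ∀ n : ℕ, n0 ≤ n → ∀ K : Set (Fin n → ℝ), Convex ℝ K →
      IsCompact K → (interior K).Nonempty → Asy ρ K →
      infi n < mah K ∧ ∀ p : ℝ, p0 ≤ p → infp n p < mahp p K := by
  have hce : Real.exp 1 < 2 + 2 / ρ := by
    have : Real.exp 1 - 2 < 2 / ρ := by
      rw [lt_div_iff₀ hρ]; linarith
    linarith
  obtain ⟨p0, n0, hp0, hn0, H⟩ := thr hce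
  refine ⟨p0, n0, hp0, fun n hn K hKc hKk hKi hb => ?_⟩
  obtain ⟨h1, h2⟩ := H n hn
  have hn' : 1 ≤ n := hn0.trans hn
  exact ⟨(crit_inf hn' hKc hKk hKi hρ hb).2 h1, fun p hp =>
    (crit_fin (hp0.trans_le hp) hn' hKc hKk hKi hρ hb).2 (h2 p hp)⟩

/-! ### Explicit dimensions -/

lemma num3 : ∀ n : ℕ, 15 ≤ n → ((n:ℝ) + 1) ^ (n + 1) < (3:ℝ) ^ n * n.factorial := by
  refine grow 3 15 ?_ ?_
  · have h1 : Real.exp (1 + 1 / (((15:ℕ):ℝ) + 1)) ^ 16 = Real.exp 1 ^ 17 := by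
      rw [← Real.exp_nat_mul, ← Real.exp_nat_mul]
      congr 1
      norm_num
    have h2 : Real.exp 1 ^ 17 ≤ (2.7182818286 : ℝ) ^ 17 :=
      pow_le_pow_left₀ (Real.exp_pos _).le exp_bound.le 17
    have h3 : (2.7182818286 : ℝ) ^ 17 ≤ (3:ℝ) ^ 16 := by norm_num
    have h4 : Real.exp (1 + 1 / (((15:ℕ):ℝ) + 1)) ^ 16 ≤ (3:ℝ) ^ 16 := by
      rw [h1]; exact h2.trans h3
    exact le_of_pow_le_pow_left₀ (by norm_num) (by norm_num) h4
  · have : (15:ℕ).factorial = 1307674368000 := by decide +kernel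
    rw [this]
    norm_num

lemma num28 : ∀ n : ℕ, 77 ≤ n → ((n:ℝ) + 1) ^ (n + 1) < (2.8:ℝ) ^ n * n.factorial := by
  refine grow 2.8 77 ?_ ?_
  · have h1 : Real.exp (1 + 1 / (((77:ℕ):ℝ) + 1)) ^ 78 = Real.exp 1 ^ 79 := by
      rw [← Real.exp_nat_mul, ← Real.exp_nat_mul]
      congr 1
      norm_num
    have h2 : Real.exp 1 ^ 79 ≤ (2.7182818286 : ℝ) ^ 79 :=
      pow_le_pow_left₀ (Real.exp_pos _).le exp_bound.le 79
    have h3 : (2.7182818286 : ℝ) ^ 79 ≤ (2.8:ℝ) ^ 78 := by norm_num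
    have h4 : Real.exp (1 + 1 / (((77:ℕ):ℝ) + 1)) ^ 78 ≤ (2.8:ℝ) ^ 78 := by
      rw [h1]; exact h2.trans h3
    exact le_of_pow_le_pow_left₀ (by norm_num) (by norm_num) h4
  · have h1 : ((78:ℕ):ℚ) ^ 78 < (2.8:ℚ) ^ 77 * ((77:ℕ).factorial : ℚ) := by
      decide +kernel
    have h2 : (((78:ℕ):ℚ) ^ 78 : ℝ) < ((2.8:ℚ) ^ 77 * ((77:ℕ).factorial : ℚ) : ℚ) := by
      exact_mod_cast h1
    push_cast at h2 ⊢
    norm_num at h2 ⊢

lemma num28f : ∀ n : ℕ, 120 ≤ n →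
    ((n:ℝ) + 1) ^ (n + 1) < ((2.8:ℝ) / 1.0082) ^ n * n.factorial := by
  refine grow (2.8 / 1.0082) 120 ?_ ?_
  · have h1 : Real.exp (1 + 1 / (((120:ℕ):ℝ) + 1)) ^ 121 = Real.exp 1 ^ 122 := by
      rw [← Real.exp_nat_mul, ← Real.exp_nat_mul]
      congr 1
      norm_num
    have h2 : Real.exp 1 ^ 122 ≤ (2.7182818286 : ℝ) ^ 122 :=
      pow_le_pow_left₀ (Real.exp_pos _).le exp_bound.le 122
    have h3 : (2.7182818286 : ℝ) ^ 122 ≤ ((2.8:ℝ) / 1.0082) ^ 121 := by norm_num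
    have h4 : Real.exp (1 + 1 / (((120:ℕ):ℝ) + 1)) ^ 121 ≤ ((2.8:ℝ) / 1.0082) ^ 121 := by
      rw [h1]; exact h2.trans h3
    exact le_of_pow_le_pow_left₀ (by norm_num) (by norm_num) h4
  · have h1 : ((121:ℕ):ℚ) ^ 121 < ((2.8:ℚ) / 1.0082) ^ 120 * ((120:ℕ).factorial : ℚ) := by
      decide +kernel
    have h2 : (((121:ℕ):ℚ) ^ 121 : ℝ) < (((2.8:ℚ) / 1.0082) ^ 120 *
        ((120:ℕ).factorial : ℚ) : ℚ) := by exact_mod_cast h1
    push_cast at h2 ⊢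
    norm_num at h2 ⊢

lemma num1001 : (1001:ℝ) ≤ (50347 / 50000) ^ 1000 := by
  have h1 : (1.0716:ℝ) ≤ (50347 / 50000) ^ 10 := by norm_num
  have h2 : (1.9967:ℝ) ≤ 1.0716 ^ 10 := by norm_num
  have h3 : (1001:ℝ) ≤ 1.9967 ^ 10 := by norm_num
  calc (1001:ℝ) ≤ 1.9967 ^ 10 := h3
    _ ≤ (1.0716 ^ 10) ^ 10 := by gcongr
    _ ≤ (((50347 / 50000) ^ 10) ^ 10) ^ 10 := by gcongr
    _ = _ := by rw [← pow_mul, ← pow_mul]

lemma bet_1000 {p : ℝ} (hp : 1000 ≤ p) : bet p ≤ 1.0082 := by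
  have hp0 : 0 < p := by linarith
  rw [bet_eq hp0]
  have h1 : (1 + p) ^ (1 / p) ≤ 1.00694 := by
    have h2 : 1 + p ≤ (1.00694 : ℝ) ^ p := by
      have h3 : 1 + p / 1000 * 1000 ≤ (1 + 1000 : ℝ) ^ (p / 1000) :=
        one_add_mul_self_le_rpow_one_add (by norm_num) (by rw [le_div_iff₀ (by norm_num)]; linarith)
      have h4 : (1 + 1000 : ℝ) ^ (p / 1000) ≤ ((1.00694 : ℝ) ^ 1000) ^ (p / 1000) :=
        Real.rpow_le_rpow (by norm_num) (by norm_num; exact num1001) (by positivity)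
      have h5 : ((1.00694 : ℝ) ^ 1000) ^ (p / 1000) = (1.00694 : ℝ) ^ p := by
        rw [← Real.rpow_natCast, ← Real.rpow_mul (by norm_num)]
        congr 1
        push_cast
        ring
      have h6 : p / 1000 * 1000 = p := by ring
      rw [h6] at h3
      linarith
    calc (1 + p) ^ (1 / p) ≤ ((1.00694 : ℝ) ^ p) ^ (1 / p) :=
          Real.rpow_le_rpow (by linarith) h2 (by positivity)
      _ = 1.00694 := by
          rw [← Real.rpow_mul (by norm_num)]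
          have : p * (1 / p) = 1 := by field_simp
          rw [this, Real.rpow_one]
  have h2 : 1 + 1 / p ≤ 1.001 := by
    have : 1 / p ≤ 1 / 1000 := one_div_le_one_div_of_le (by norm_num) hp
    norm_num at this ⊢
    linarith
  calc (1 + p) ^ (1 / p) * (1 + 1 / p) ≤ 1.00694 * 1.001 := by gcongr
    _ ≤ 1.0082 := by norm_num

theorem two_inf (hn : 15 ≤ n) {K : Set (Fin n → ℝ)} (hc : Convex ℝ K) (hk : IsCompact K)
    (hi : (interior K).Nonempty) (h : Asy 2 K) : infi n < mah K := by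
  refine (crit_inf (by omega) hc hk hi (by norm_num) h).2 ?_
  rw [div_lt_iff₀ (by positivity)]
  have := num3 n hn
  norm_num at this ⊢
  exact this

theorem five_inf (hn : 77 ≤ n) {K : Set (Fin n → ℝ)} (hc : Convex ℝ K) (hk : IsCompact K)
    (hi : (interior K).Nonempty) (h : Asy (5/2) K) : infi n < mah K := by
  refine (crit_inf (by omega) hc hk hi (by norm_num) h).2 ?_
  rw [div_lt_iff₀ (by positivity)]
  have := num28 n hn
  norm_num at this ⊢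
  exact this

theorem five_fin {p : ℝ} (hp : 1000 ≤ p) (hn : 120 ≤ n) {K : Set (Fin n → ℝ)} (hc : Convex ℝ K)
    (hk : IsCompact K) (hi : (interior K).Nonempty) (h : Asy (5/2) K) : infp n p < mahp p K := by
  have hp0 : 0 < p := by linarith
  refine (crit_fin hp0 (by omega) hc hk hi (by norm_num) h).2 ?_
  have h1 := num28f n hn
  have h2 := pow_le_pow_left₀ (bet_pos hp0).le (bet_1000 hp) n
  have e : (2:ℝ) + 2 / (5/2) = 2.8 := by norm_num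
  rw [e]
  rw [div_pow] at h1
  calc bet p ^ n * (((n:ℝ) + 1) ^ (n + 1) / n.factorial)
      ≤ 1.0082 ^ n * (((n:ℝ) + 1) ^ (n + 1) / n.factorial) := by gcongr
    _ < 1.0082 ^ n * (((2.8:ℝ) ^ n / 1.0082 ^ n * n.factorial) / n.factorial) := by
        gcongr
    _ = _ := by field_simp

end Pool.Agent.TH247.NS
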